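import Pool.Agent.H97.PRP.Targets

/-!
# Board prp_modules (MP_e37c09_lc), row CLU
-/

open Ordinal Cardinal Order Set
open scoped ZFSet

universe u

namespace Pool.Agent.H30.PRP

open _root_.HD HD.PRK HD.PRP

theorem clu_univ {K : Cardinal.{u}} (hK : K.IsRegular) : Clb K.ord univ := by
  have hlim : IsSuccLimit K.ord := isSuccLimit_ord hK.aleph0_le
  exact ⟨fun a ha => ⟨a + 1, hlim.add_one_lt ha, lt_add_one a, mem_univ _⟩,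
    fun _ _ _ _ => mem_univ _⟩

theorem clu_null {K : Cardinal.{u}} (hK : K.IsRegular) (μ : Ordinal.{u}) (X : Set Ordinal.{u}) :
    ∃ C, Clb K.ord C ∧ ∀ b ∈ C, b < K.ord → Cf μ b → b ∈ X → Pos μ K.ord X := by
  by_cases h : Pos μ K.ord X
  · exact ⟨univ, clu_univ hK, fun _ _ _ _ _ => h⟩
  · have h' := h
    unfold Pos at h'
    push Not at h'
    obtain ⟨C, hC, h'⟩ := h'
    exact ⟨C, hC, fun b hb hbK h1 h2 => absurd h1 (h' b hbK hb h2)⟩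

theorem pf_CLU (h0 : HD.PRK.T_CI.{u}) (h1 : HD.PRP.T_FC.{u}) : T_CLU.{u} := by
  intro D K hD hK hDK t Q e he
  obtain ⟨cs, -, hcs⟩ := h1
  have hK0 : ℵ₀ < K := hD.trans hDK
  have hDo : D.ord < K.ord := ord_lt_ord.2 hDK
  obtain ⟨CF, hCF, hCF'⟩ := hcs K hK hK0
  have hN : ∀ z ξ σ M : Ordinal.{u}, ∃ C, Clb K.ord C ∧ ∀ b ∈ C, b < K.ord → Cf M b →
      b ∈ {a | Tt t Q (cs σ) (e z) ξ a} → Pos M K.ord {a | Tt t Q (cs σ) (e z) ξ a} :=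
    fun z ξ σ M => clu_null hK M _
  choose CN hCN hCN' using hN
  have hd1 : ∀ z ξ, Clb K.ord {x | 0 < x ∧ ∀ σ < x, x ∈ {b | ∀ M < D.ord, b ∈ CN z ξ σ M}} :=
    fun z ξ => Pool.Agent.H33.HD.VD.diag hK hK0 (fun σ => {b | ∀ M < D.ord, b ∈ CN z ξ σ M})
      fun σ _ => h0 K hK hK0 D.ord hDo (CN z ξ σ) fun M _ => hCN z ξ σ M
  have hd2 : ∀ z, Clb K.ord {x | 0 < x ∧ ∀ ξ < x,
      x ∈ {x | 0 < x ∧ ∀ σ < x, x ∈ {b | ∀ M < D.ord, b ∈ CN z ξ σ M}}} :=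
    fun z => Pool.Agent.H33.HD.VD.diag hK hK0
      (fun ξ => {x | 0 < x ∧ ∀ σ < x, x ∈ {b | ∀ M < D.ord, b ∈ CN z ξ σ M}})
      fun ξ _ => hd1 z ξ
  have hd3 := Pool.Agent.H33.HD.VD.diag hK hK0
    (fun z => {x | 0 < x ∧ ∀ ξ < x,
      x ∈ {x | 0 < x ∧ ∀ σ < x, x ∈ {b | ∀ M < D.ord, b ∈ CN z ξ σ M}}}) fun z _ => hd2 z
  refine ⟨CF ∩ {x | 0 < x ∧ ∀ z < x, x ∈ {x | 0 < x ∧ ∀ ξ < x,
      x ∈ {x | 0 < x ∧ ∀ σ < x, x ∈ {b | ∀ M < D.ord, b ∈ CN z ξ σ M}}}},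
    Pool.Agent.H54.CL.clb_inter hK0 hK hCF hd3, ?_⟩
  rintro a ⟨ha1, ha2⟩ haK hcof z hz ξ hξ s hs hfin ht
  obtain ⟨σ, hσ, rfl⟩ := hCF' a ha1 haK s hs hfin
  have h3 : a ∈ CN z ξ σ a.cof.ord := ((ha2.2 z hz).2 ξ hξ).2 σ hσ a.cof.ord hcof
  exact ⟨(he z).1, (he z).2, a.cof.ord, hcof, hCN' z ξ σ a.cof.ord a h3 haK rfl ht⟩

end Pool.Agent.H30.PRP
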